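import Pool.Agent.Helper98.LC.Defs2

/-!
# Definitions for the coarsening argument and the data of a face
-/

namespace Pool.Agent.Helper98.LC

open Finset Real

/-- merge the class `j` into the class `i` -/
def merge {ι : Type} [DecidableEq ι] (c : V → ι) (i j : ι) : V → ι :=
  fun x => if c x = j then i else c x

/-- the functional to be minimised -/
noncomputable def Phi {ι : Type} [Fintype ι] [DecidableEq ι] (G : Net) (c : V → ι) (o : ι) (n : ℕ)
    (η : ℝ) : ℝ :=
  per2 G c n - ∑ i ∈ univ.filter (fun i => i ≠ o), (6 * min 1 (ar G c n i) + η * ar G c n i)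

/-- the total area of the classes other than the outer one -/
noncomputable def tot {ι : Type} [Fintype ι] [DecidableEq ι] (G : Net) (c : V → ι) (o : ι)
    (n : ℕ) : ℝ := ∑ i ∈ univ.filter (fun i => i ≠ o), ar G c n i

/-- there is a dart from the class `i` to the class `j` -/
def Touch {ι : Type} [DecidableEq ι] (c : V → ι) (i j : ι) : Prop :=
  ∃ d, IsCut c d ∧ c d.1 = i ∧ c (tip d) = j

/-- A labelling which cannot be improved by merging two classes. -/
structure Minimal {ι : Type} [Fintype ι] [DecidableEq ι] (G : Net) (c : V → ι) (o : ι) (n : ℕ)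
    (η : ℝ) : Prop where
  out : OutBox c o n
  conn : Conn c
  inner : ∀ i j, i ≠ o → j ≠ o → Touch c i j →
    2 * cut G c n i j < 6 * (min 1 (ar G c n i) + min 1 (ar G c n j) -
      min 1 (ar G c n i + ar G c n j))
  outer : ∀ i, i ≠ o → Touch c i o →
    2 * cut G c n i o < 6 * min 1 (ar G c n i) + η * ar G c n i

/-- The data of a face with edges `F`: `a` is the area, `l e`, `ch e` the lengths of the edge and
its chord, `y e` the bulge (the unit of area is the hexagon with area `A0`). -/
structure FaceFacts {E : Type} [DecidableEq E] (F : Finset E) (a : ℝ) (l ch y : E → ℝ) : Prop where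
  ch_nonneg : ∀ e ∈ F, 0 ≤ ch e
  ch_le : ∀ e ∈ F, ch e ≤ l e
  /-- inequality of Dido for `M` rotated copies of an edge -/
  dido : ∀ e ∈ F, ∀ M : ℕ, 2 ≤ M →
    π / M * (cos (π / M) / sin (π / M)) * ch e ^ 2 + 4 * π / M * (A0 * |y e|) ≤ l e ^ 2
  /-- isoperimetric inequality after reflecting the edges in `R` -/
  refl : ∀ R, R ⊆ F → 4 * π * (A0 * (a - 2 * ∑ e ∈ R, y e)) ≤ (∑ e ∈ F, l e) ^ 2
  /-- chord polygon with roofs over the edges in `O` -/
  roof : ∀ O, O ⊆ F → ∀ t : ℝ, 0 ≤ t → 3 ≤ F.card + O.card →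
    4 * (F.card + O.card : ℝ) * tan (π / (F.card + O.card : ℝ)) *
      (A0 * (a - ∑ e ∈ F, y e) + ∑ e ∈ O, ch e ^ 2 * t / 4) ≤
      (∑ e ∈ F \ O, ch e + ∑ e ∈ O, ch e * √(1 + t ^ 2)) ^ 2
  /-- two or fewer corners: the chord polygon is degenerate -/
  small : F.card ≤ 2 → ∑ e ∈ F, y e = a

end Pool.Agent.Helper98.LC
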