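import Pool.Agent.Helper98.LC.Defs2

/-!
# Definitions for the Euler inequality
-/

namespace Pool.Agent.Helper98.LC

open Finset

/-- the darts with both ends in `S` (two for every edge) -/
def dOne (S : Finset V) : Finset (V × Fin 6) := (S ×ˢ univ).filter fun d => tip d ∈ S

/-- the darts whose left triangle is contained in `S` (three for every triangle) -/
def dTwo (S : Finset V) : Finset (V × Fin 6) :=
  (S ×ˢ univ).filter fun d => tip d ∈ S ∧ third d ∈ S

/-- six times the Euler characteristic of the full subcomplex spanned by `S` -/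
def chi6 (S : Finset V) : ℤ := 6 * (S.card : ℤ) - 3 * ((dOne S).card : ℤ) + 2 * ((dTwo S).card : ℤ)

/-- `S` is connected in the grid. -/
def ConnSet (S : Finset V) : Prop := ∀ x ∈ S, ∀ y ∈ S,
  Relation.ReflTransGen (fun a b : V => a ∈ S ∧ b ∈ S ∧ ∃ k, b = a + dir k) x y

/-- the vertices of a class in a box -/
noncomputable def cls {ι : Type} [DecidableEq ι] (c : V → ι) (n : ℕ) (i : ι) : Finset V :=
  (box n).filter fun x => c x = i

end Pool.Agent.Helper98.LC
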