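import Mathlib

/-!
# Lower bound for the perimeter of planar clusters: common definitions

The combinatorial model: the vertices of the triangulated square grid carry labels; every edge of the
grid has a crossing point `q`, every triangle has a centre `z`.  The interface between different
labels consists of the segments `z - q - z'` (one broken line for every edge whose end points have
different labels).  A *dart* is a pair `(x, k)`: the oriented edge from the vertex `x` to its
neighbour `x + dir k`.  The triangle on the left side of the dart `(x, k)` has the vertices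
`x, x + dir k, x + dir (k + 1)` (counterclockwise).
-/

namespace Pool.Agent.Helper98.LC

open Finset

/-- The area of a regular hexagon with side length `1`. -/
noncomputable def A0 : ℝ := 3 * Real.sqrt 3 / 2

/-- cross product -/
noncomputable def cr (a b : ℂ) : ℝ := a.re * b.im - a.im * b.re

/-- the vertices of the grid -/
abbrev V : Type := ℤ × ℤ

/-- the six directions, counterclockwise -/
def dir : Fin 6 → V := ![(1, 0), (1, 1), (0, 1), (-1, 0), (-1, -1), (0, -1)]

/-- the end point of a dart -/
def tip (d : V × Fin 6) : V := d.1 + dir d.2

/-- the reversed dart -/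
def rev (d : V × Fin 6) : V × Fin 6 := (d.1 + dir d.2, d.2 + 3)

/-- The geometric data: crossing points of the edges and centres of the triangles, as functions of
the darts (the centre of the dart `(x, k)` is the one of the triangle on the left side). -/
structure Net where
  q : V → Fin 6 → ℂ
  z : V → Fin 6 → ℂ
  q_rev : ∀ x k, q (x + dir k) (k + 3) = q x k
  z_rot : ∀ x k, z (x + dir k) (k + 2) = z x k
  area_nonneg : ∀ x, 0 ≤ ∑ k, (cr (q x k) (z x k) + cr (z x k) (q x (k + 1))) / 2

/-- the area of the dual cell of a vertex -/
noncomputable def Net.al (G : Net) (x : V) : ℝ :=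
  ∑ k, (cr (G.q x k) (G.z x k) + cr (G.z x k) (G.q x (k + 1))) / 2

/-- the length of the interface at a dart -/
noncomputable def Net.w (G : Net) (d : V × Fin 6) : ℝ :=
  ‖G.q d.1 d.2 - G.z d.1 (d.2 - 1)‖ + ‖G.z d.1 d.2 - G.q d.1 d.2‖

/-- the contribution of the dart to the signed area -/
noncomputable def Net.et (G : Net) (d : V × Fin 6) : ℝ :=
  (cr (G.z d.1 (d.2 - 1)) (G.q d.1 d.2) + cr (G.q d.1 d.2) (G.z d.1 d.2)) / 2

/-- the square box -/
noncomputable def box (n : ℕ) : Finset V := Icc (-(n : ℤ)) n ×ˢ Icc (-(n : ℤ)) n

/-- A labelling which is equal to `o` outside a box. -/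
def OutBox {ι : Type} (c : V → ι) (o : ι) (n : ℕ) : Prop := ∀ x, x ∉ box n → c x = o

/-- neighbours with equal labels -/
def Adj1 {ι : Type} (c : V → ι) (x y : V) : Prop := c x = c y ∧ ∃ k, y = x + dir k

/-- all classes of the labelling are connected -/
def Conn {ι : Type} (c : V → ι) : Prop := ∀ x y, c x = c y → Relation.ReflTransGen (Adj1 c) x y

/-- the darts which leave their class -/
noncomputable def darts {ι : Type} [DecidableEq ι] (c : V → ι) (n : ℕ) : Finset (V × Fin 6) :=
  (box (n + 1) ×ˢ univ).filter fun d => c d.1 ≠ c (tip d)

/-- twice the length of the interface -/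
noncomputable def per2 {ι : Type} [DecidableEq ι] (G : Net) (c : V → ι) (n : ℕ) : ℝ := ∑ d ∈ darts c n, G.w d

/-- the area of a class, in hexagons (meaningful for the labels other than the outer one) -/
noncomputable def ar {ι : Type} [DecidableEq ι] (G : Net) (c : V → ι) (n : ℕ) (i : ι) : ℝ :=
  (∑ x ∈ (box n).filter fun x => c x = i, G.al x) / A0

end Pool.Agent.Helper98.LC
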