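import Pool.Agent.Helper98.LC.Defs

/-!
# Boundary walks, corners and edges of the classes of a labelling
-/

namespace Pool.Agent.Helper98.LC

open Finset

variable {ι : Type} [DecidableEq ι]

/-- the dart leaves its class -/
def IsCut (c : V → ι) (d : V × Fin 6) : Prop := c d.1 ≠ c (tip d)

/-- the third vertex of the triangle on the left side of a dart -/
def third (d : V × Fin 6) : V := d.1 + dir (d.2 + 1)

/-- The next dart of the boundary of the class of the starting vertex (counterclockwise around the
class; it passes the triangle on the left side of the dart). -/
def next (c : V → ι) (d : V × Fin 6) : V × Fin 6 :=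
  if c (third d) = c d.1 then (third d, d.2 - 1) else (d.1, d.2 + 1)

/-- the previous dart of the boundary of the class of the starting vertex -/
def prev (c : V → ι) (d : V × Fin 6) : V × Fin 6 :=
  if c (d.1 + dir (d.2 - 1)) = c d.1 then (d.1 + dir (d.2 - 1), d.2 + 1) else (d.1, d.2 - 1)

/-- The three vertices of the triangle on the left side of the dart are in different classes. -/
def IsCorner (c : V → ι) (d : V × Fin 6) : Prop :=
  c d.1 ≠ c (tip d) ∧ c (third d) ≠ c d.1 ∧ c (third d) ≠ c (tip d)

instance (c : V → ι) (d : V × Fin 6) : Decidable (IsCut c d) := by unfold IsCut; infer_instance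

instance (c : V → ι) (d : V × Fin 6) : Decidable (IsCorner c d) := by
  unfold IsCorner; infer_instance

/-- the corner darts of the class `i` -/
noncomputable def corners (c : V → ι) (n : ℕ) (i : ι) : Finset (V × Fin 6) :=
  (darts c n).filter fun d => IsCorner c d ∧ c d.1 = i

/-- all corner darts -/
noncomputable def allCorners (c : V → ι) (n : ℕ) : Finset (V × Fin 6) :=
  (darts c n).filter fun d => IsCorner c d

/-- There are no loops: every boundary walk meets a corner. -/
def NoLoop (c : V → ι) : Prop := ∀ d, IsCut c d → ∃ m : ℕ, IsCorner c ((next c)^[m] d)

open Classical in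
/-- the number of darts of the edge which starts at the corner `d` (the least `m ≥ 1` such that the
`m`-th dart after `d` is a corner again) -/
noncomputable def emul (c : V → ι) (d : V × Fin 6) : ℕ :=
  if h : ∃ m : ℕ, 1 ≤ m ∧ IsCorner c ((next c)^[m] d) then Nat.find h else 1

/-- the corner at the end of the edge which starts at the corner `d` -/
noncomputable def es (c : V → ι) (d : V × Fin 6) : V × Fin 6 := (next c)^[emul c d] d

/-- the darts of the edge which starts at the corner `d` -/
def edart (c : V → ι) (d : V × Fin 6) (j : ℕ) : V × Fin 6 := (next c)^[j] d

/-- the same edge seen from the other side, given by its corner -/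
noncomputable def eopp (c : V → ι) (d : V × Fin 6) : V × Fin 6 := prev c (rev (es c d))

/-- the class on the other side of the edge -/
def enb (c : V → ι) (d : V × Fin 6) : ι := c (tip (next c d))

/-- the length of the edge which starts at the corner `d` -/
noncomputable def elen (G : Net) (c : V → ι) (d : V × Fin 6) : ℝ := ∑ j ∈ Icc 1 (emul c d), G.w (edart c d j)

/-- the centre of the triangle on the left side of a dart -/
noncomputable def Net.zl (G : Net) (d : V × Fin 6) : ℂ := G.z d.1 d.2

/-- the length of the chord of the edge -/
noncomputable def echd (G : Net) (c : V → ι) (d : V × Fin 6) : ℝ := ‖G.zl (es c d) - G.zl d‖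

/-- the signed area between the edge and its chord, in hexagons (positive if the edge bulges out of
the class of `d`) -/
noncomputable def ebul (G : Net) (c : V → ι) (d : V × Fin 6) : ℝ :=
  (∑ j ∈ Icc 1 (emul c d), G.et (edart c d j) - cr (G.zl d) (G.zl (es c d)) / 2) / A0

/-- the length of the interface between the classes `i` and `j` -/
noncomputable def cut (G : Net) (c : V → ι) (n : ℕ) (i j : ι) : ℝ :=
  ∑ d ∈ (darts c n).filter fun d => c d.1 = i ∧ c (tip d) = j, G.w d

end Pool.Agent.Helper98.LC
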