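import Pool.Agent.Helper79.HC.Defs

/-!
# The limit inferior, from the lower bound for all `N` and a finite upper bound
-/

namespace Pool.Agent.Helper98.LC

open Real Filter Topology Pool.Agent.Helper79.HC

theorem liminf_of {K C : ℝ} (hl : ∀ N : ℕ, ENNReal.ofReal (3 * N + K * √N - C) ≤ p N)
    (hf : ∀ᶠ N : ℕ in atTop, p N < ⊤) :
    ((K : ℝ) : EReal) ≤
      liminf (fun N : ℕ => ((((p N).toReal - 3 * N) / √N : ℝ) : EReal)) atTop := by
  have hlim : Tendsto (fun N : ℕ => (((K - C / √N : ℝ)) : EReal)) atTop (𝓝 ((K : ℝ) : EReal)) := by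
    have h1 : Tendsto (fun N : ℕ => √(N : ℝ)) atTop atTop :=
      Real.tendsto_sqrt_atTop.comp tendsto_natCast_atTop_atTop
    have h2 : Tendsto (fun N : ℕ => K - C / √N) atTop (𝓝 (K - 0)) :=
      tendsto_const_nhds.sub (h1.const_div_atTop C)
    rw [sub_zero] at h2
    exact (continuous_coe_real_ereal.tendsto _).comp h2
  rw [← hlim.liminf_eq]
  refine liminf_le_liminf ?_
  filter_upwards [hf, eventually_ge_atTop 1] with N hN h1
  rw [EReal.coe_le_coe_iff]
  have hpos : 0 < √(N : ℝ) := Real.sqrt_pos.2 (by exact_mod_cast h1)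
  rw [le_div_iff₀ hpos, sub_mul, div_mul_cancel₀ _ hpos.ne']
  have h2 := (ENNReal.ofReal_le_iff_le_toReal hN.ne).1 (hl N)
  linarith

end Pool.Agent.Helper98.LC
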