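import Pool.Agent.Helper38.LCA.Approx
import Pool.Agent.Helper98.LC.F.Model

/-!
# The lower bound for the least perimeter of planar clusters

The approximation theorem (`Pool.Agent.Helper38.LCA.approx`) and the model theorem (`model`).
-/

namespace Pool.Agent.Helper98.LC

open Finset Real

/-- The real form of the lower bound, for one cluster with finite perimeter. -/
theorem cluster_bound {N : ℕ} {R : Fin N → Set ℂ} (hR : Pool.Agent.Helper79.HC.IsCluster R)
    (hP : Pool.Agent.Helper79.HC.clusterPer R < ⊤) :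
    3 * (N : ℝ) + 2.98 * √N - 178800 ≤ (Pool.Agent.Helper79.HC.clusterPer R).toReal := by
  set cp := (Pool.Agent.Helper79.HC.clusterPer R).toReal with hcp
  have key : ∀ δ : ℝ, 0 < δ → δ < 1 →
      6 * (N : ℝ) * (1 - δ) + 5.96 * (√N * (1 - δ)) - 357600 ≤ 2 * cp + δ := by
    intro δ hδ hδ1
    obtain ⟨G, n, c, ho, har, hper⟩ := Pool.Agent.Helper38.LCA.approx hR hP hδ
    have hm := model G c ho
    have hfil : univ.filter (fun j : Fin (N + 1) => j ≠ 0) = univ.map (Fin.succEmb N) := by
      ext j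
      simp only [mem_filter, mem_univ, true_and, mem_map, Fin.coe_succEmb]
      constructor
      · intro hj
        exact ⟨j.pred hj, Fin.succ_pred j hj⟩
      · rintro ⟨i, rfl⟩
        exact Fin.succ_ne_zero i
    rw [hfil, sum_map, sum_map] at hm
    have h1 : (N : ℝ) * (1 - δ) ≤ ∑ i : Fin N, min 1 (ar G c n (Fin.succEmb N i)) := by
      calc (N : ℝ) * (1 - δ) = ∑ _i : Fin N, (1 - δ) := by
            rw [sum_const, card_univ, Fintype.card_fin, nsmul_eq_mul]
        _ ≤ _ := sum_le_sum fun i _ => le_min (by linarith) (har i)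
    have h2 : (N : ℝ) * (1 - δ) ≤ ∑ i : Fin N, ar G c n (Fin.succEmb N i) := by
      calc (N : ℝ) * (1 - δ) = ∑ _i : Fin N, (1 - δ) := by
            rw [sum_const, card_univ, Fintype.card_fin, nsmul_eq_mul]
        _ ≤ _ := sum_le_sum fun i _ => har i
    have h3 : √N * (1 - δ) ≤ √(∑ i : Fin N, ar G c n (Fin.succEmb N i)) := by
      refine le_trans ?_ (Real.sqrt_le_sqrt h2)
      rw [Real.sqrt_mul (Nat.cast_nonneg N)]
      refine mul_le_mul_of_nonneg_left ?_ (Real.sqrt_nonneg _)
      refine Real.le_sqrt_of_sq_le ?_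
      nlinarith
    linarith
  by_contra hcon
  rw [not_le] at hcon
  set gap := 3 * (N : ℝ) + 2.98 * √N - 178800 - cp with hgap
  have hg : 0 < gap := by linarith
  have hN : (0 : ℝ) ≤ N := Nat.cast_nonneg N
  have hs : 0 ≤ √(N : ℝ) := Real.sqrt_nonneg _
  set D := 6 * (N : ℝ) + 5.96 * √N + 1 with hD
  have hD0 : 0 < D := by positivity
  obtain ⟨δ, hδ0, hδ1, hδ2⟩ : ∃ δ : ℝ, 0 < δ ∧ δ < 1 ∧ D * δ < 2 * gap := by
    refine ⟨min (1 / 2) (gap / D), lt_min (by norm_num) (by positivity),
      lt_of_le_of_lt (min_le_left _ _) (by norm_num), ?_⟩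
    calc D * min (1 / 2) (gap / D) ≤ D * (gap / D) :=
          mul_le_mul_of_nonneg_left (min_le_right _ _) hD0.le
      _ = gap := by field_simp
      _ < 2 * gap := by linarith
  have := key δ hδ0 hδ1
  have e : D * δ = 6 * (N : ℝ) * δ + 5.96 * √N * δ + δ := by
    rw [hD]
    ring
  rw [e] at hδ2
  nlinarith

/-- The lower bound. -/
theorem lower (N : ℕ) :
    ENNReal.ofReal (3 * N + 2.98 * √N - 178800) ≤ Pool.Agent.Helper79.HC.p N := by
  unfold Pool.Agent.Helper79.HC.p
  refine le_iInf₂ fun R hR => ?_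
  by_cases hP : Pool.Agent.Helper79.HC.clusterPer R < ⊤
  · exact ENNReal.ofReal_le_of_le_toReal (cluster_bound hR hP)
  · rw [not_lt, top_le_iff] at hP
    rw [hP]
    exact le_top

end Pool.Agent.Helper98.LC
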